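import Mathlib
import Pool.Agent.Helper62_CoverFree.Upper

set_option autoImplicit false

namespace Pool.Agent.Results.MP_0b1105_co.LowerBound

open Finset

/-- For every `t ≥ 1`, the least `n` for which some family of more than `n` subsets of an `n`-element
set has no member contained in the union of at most `t` other members satisfies `n > t²`.
(The `sInf` of the empty set of naturals is `0`, so the strict inequality also shows that such `n`
exist and the `sInf` is a genuine minimum.) -/
theorem result (t : ℕ) (ht : 1 ≤ t) :
    t ^ 2 < sInf {n : ℕ | ∃ F : Finset (Finset (Fin n)), n < F.card ∧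
      ∀ A ∈ F, ∀ S ⊆ F.erase A, S.card ≤ t → ¬ A ⊆ S.sup id} :=
  Pool.Agent.Helper62_CoverFree.sq_lt_Nstar t ht

end Pool.Agent.Results.MP_0b1105_co.LowerBound
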